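import Pool.Agent.H.MP_007251_co.Defs

set_option autoImplicit false

namespace Pool.Agent.H.MP_007251_co

open Finset Classical

variable {V : Type} [Fintype V]

theorem diag_range (M : V → V → ZMod 2) (hM : ∀ i j, M i j = M j i) :
    ∃ x : V → ZMod 2, ∀ i, ∑ j, M i j * x j = M i i := by
  by_contra hn
  let L : (V → ZMod 2) →ₗ[ZMod 2] (V → ZMod 2) := Matrix.mulVecLin (Matrix.of M)
  have hd : (fun i => M i i) ∉ LinearMap.range L := by
    rintro ⟨x, hx⟩
    exact hn ⟨x, fun i => congrFun hx i⟩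
  obtain ⟨f, hf, hle⟩ := Submodule.exists_le_ker_of_notMem hd
  let y : V → ZMod 2 := fun i => f (Pi.single i 1)
  have hf' : ∀ z : V → ZMod 2, f z = ∑ i, z i * y i := fun z => by
    conv_lhs => rw [pi_eq_sum_univ' z]
    rw [map_sum]
    exact sum_congr rfl fun i _ => by rw [map_smul]; rfl
  have h0 : ∑ i, (∑ j, M i j * y j) * y i = 0 := by
    have := hle (LinearMap.mem_range_self L y)
    rw [LinearMap.mem_ker, hf'] at this
    exact this
  apply hf
  rw [hf', ← h0]
  simp only [sum_mul]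
  rw [← sum_product', ← diag_union_offDiag, sum_union (disjoint_diag_offDiag _),
    sum_diag]
  have h1 : ∑ p ∈ (univ : Finset V).offDiag, M p.1 p.2 * y p.2 * y p.1 = 0 := by
    refine sum_involution (fun p _ => p.swap) (fun p _ => ?_) (fun p hp _ e => ?_)
      (fun p hp => ?_) (fun p _ => rfl)
    · simp only [Prod.fst_swap, Prod.snd_swap]
      rw [hM p.2 p.1, mul_right_comm]
      exact CharTwo.add_self_eq_zero _
    · exact (mem_offDiag.1 hp).2.2 (congrArg Prod.snd e)
    · exact mem_offDiag.2 ⟨mem_univ _, mem_univ _, (mem_offDiag.1 hp).2.2.symm⟩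
  rw [h1, add_zero]
  refine sum_congr rfl fun i _ => ?_
  have : ∀ a : ZMod 2, a * a = a := by decide
  rw [mul_assoc, this]

/-- Gallai: a bipartition with even degrees inside both parts -/
theorem gallai (r : V → V → Prop) (hs : ∀ i j, r i j → r j i) (hi : ∀ i, ¬ r i i) :
    ∃ x : V → ZMod 2, ∀ v, Even (univ.filter (fun w => r v w ∧ x w = x v)).card := by
  obtain ⟨x, hx⟩ := diag_range
    (fun i j => if i = j then ∑ w, (if r i w then 1 else 0) else if r i j then 1 else 0)
    (fun i j => by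
      by_cases h : i = j
      · subst h; rfl
      · have : r i j ↔ r j i := ⟨hs _ _, hs _ _⟩
        simp only [h, Ne.symm h, if_false, this])
  refine ⟨x, fun v => ?_⟩
  rw [← ZMod.natCast_eq_zero_iff_even, card_filter]
  push_cast
  have h := hx v
  simp only [if_true] at h
  have e1 : ∀ j, (if v = j then ∑ w, (if r v w then (1 : ZMod 2) else 0)
      else if r v j then 1 else 0) * x j =
      (if v = j then (∑ w, (if r v w then (1 : ZMod 2) else 0)) * x v else 0) +
        (if r v j then 1 else 0) * x j := fun j => by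
    by_cases hj : v = j
    · subst hj; simp [hi]
    · simp [hj]
  simp only [e1, sum_add_distrib, sum_ite_eq, mem_univ, if_true] at h
  have e2 : ∀ w, (if r v w ∧ x w = x v then (1 : ZMod 2) else 0) =
      (if r v w then 1 else 0) * x v + (if r v w then 1 else 0) * x w -
        (if r v w then 1 else 0) := fun w => by
    by_cases hw : r v w
    · simp only [hw, true_and, if_true]
      generalize x w = a
      generalize x v = b
      revert a b
      decide
    · simp [hw]
  simp only [e2, sum_sub_distrib, sum_add_distrib, ← sum_mul]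
  rw [h, sub_self]

omit [Fintype V] in
theorem oddSet_iff (G : SimpleGraph V) (S : Finset V) :
    OddSet G S ↔ ∀ v ∈ S, Odd (S.filter (fun w => G.Adj v w)).card := by
  refine forall_congr' fun v => forall_congr' fun _ => ?_
  rw [← Set.ncard_coe_finset]
  have : {w | w ∈ S ∧ G.Adj v w} = ↑(S.filter (fun w => G.Adj v w)) := by ext; simp
  rw [this]

/-- `deg + 1 ≡ size` inside `X` -/
def Co (G : SimpleGraph V) (X : Finset V) : Prop :=
  ∀ v ∈ X, ((X.filter (fun w => G.Adj v w)).card + 1 + X.card) % 2 = 0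

theorem split (G : SimpleGraph V) (A : Finset V) :
    ∃ X Y : Finset V, X ⊆ A ∧ Y ⊆ A ∧ X.card + Y.card = A.card ∧ Co G X ∧ Co G Y := by
  obtain ⟨x, hx⟩ := gallai (fun i j => i ∈ A ∧ j ∈ A ∧ i ≠ j ∧ ¬ G.Adj i j)
    (fun i j h => ⟨h.2.1, h.1, h.2.2.1.symm, fun h' => h.2.2.2 h'.symm⟩)
    (fun i h => h.2.2.1 rfl)
  have key : ∀ c, Co G (A.filter (fun v => x v = c)) := by
    intro c v hv
    obtain ⟨hvA, rfl⟩ := mem_filter.1 hv
    obtain ⟨F, h1, hF⟩ : ∃ F : Finset V, Even F.card ∧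
        ∀ w, w ∈ F ↔ ((v ∈ A ∧ w ∈ A ∧ v ≠ w ∧ ¬ G.Adj v w) ∧ x w = x v) :=
      ⟨_, hx v, fun w => by simp⟩
    have h2 := card_filter_add_card_filter_not (s := A.filter (fun w => x w = x v))
      (fun w => G.Adj v w)
    have h3 : (A.filter (fun w => x w = x v)).filter (fun w => ¬ G.Adj v w) = insert v F := by
      ext w
      simp only [mem_filter, mem_insert, hF]
      by_cases hw : w = v
      · subst hw; simp [hvA]
      · have := Ne.symm hw
        tauto
    rw [h3, card_insert_of_notMem (by simp [hF])] at h2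
    rw [Nat.even_iff] at h1
    omega
  refine ⟨_, _, filter_subset _ _, filter_subset _ _, ?_, key 0, key 1⟩
  rw [← card_filter_add_card_filter_not (s := A) (fun v => x v = 0)]
  have : ∀ a : ZMod 2, a = 1 ↔ ¬ a = 0 := by decide
  simp only [this]

omit [Fintype V] in
theorem glue (G : SimpleGraph V) (X Y : Finset V) (hXY : ∀ a ∈ X, ∀ b ∈ Y, G.Adj a b)
    (hX : Co G X) (hY : Co G Y) (hp : (X.card + Y.card) % 2 = 0) :
    OddSet G (X ∪ Y) ∧ (X ∪ Y).card = X.card + Y.card := by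
  have hd : Disjoint X Y := disjoint_left.2 fun a ha hb => (hXY a ha a hb).ne rfl
  refine ⟨(oddSet_iff _ _).2 fun v hv => ?_, card_union_of_disjoint hd⟩
  rw [filter_union, card_union_of_disjoint (disjoint_filter_filter hd), Nat.odd_iff]
  rcases mem_union.1 hv with hv | hv
  · rw [filter_true_of_mem (s := Y) (fun b hb => hXY v hv b hb)]
    have := hX v hv
    omega
  · rw [filter_true_of_mem (s := X) (fun b hb => (hXY b hb v hv).symm)]
    have := hY v hv
    omega

omit [Fintype V] in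
theorem odd_sub (A : Finset V) (hA : A.Nonempty) :
    ∃ A' ⊆ A, A'.card % 2 = 1 ∧ A.card ≤ A'.card + 1 := by
  obtain ⟨a, ha⟩ := hA
  by_cases h : A.card % 2 = 1
  · exact ⟨A, Subset.refl _, h, by omega⟩
  · have := card_pos.2 ⟨a, ha⟩
    exact ⟨A.erase a, erase_subset _ _, by rw [card_erase_of_mem ha]; omega,
      by rw [card_erase_of_mem ha]; omega⟩

theorem join_odd (G : SimpleGraph V) (A B : Finset V) (hA : A.Nonempty) (hB : B.Nonempty)
    (hAB : ∀ a ∈ A, ∀ b ∈ B, G.Adj a b) :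
    ∃ S ⊆ A ∪ B, OddSet G S ∧ A.card + B.card ≤ 3 * S.card ∧ S.card % 2 = 0 := by
  by_cases h6 : A.card + B.card ≤ 6
  · obtain ⟨a, ha⟩ := hA
    obtain ⟨b, hb⟩ := hB
    have co : ∀ a, Co G {a} := fun a v hv => by
      rw [mem_singleton.1 hv, filter_singleton, if_neg (G.loopless.irrefl a)]; simp
    obtain ⟨h1, h2⟩ := glue G {a} {b} (by simpa using hAB a ha b hb) (co a) (co b) (by simp)
    refine ⟨_, union_subset_union (by simpa) (by simpa), h1, ?_, ?_⟩ <;> rw [h2] <;> simp
    omega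
  · obtain ⟨A', hA', a1, a2⟩ := odd_sub A hA
    obtain ⟨B', hB', b1, b2⟩ := odd_sub B hB
    obtain ⟨X, X', hX, hX', ex, cX, cX'⟩ := split G A'
    obtain ⟨Y, Y', hY, hY', ey, cY, cY'⟩ := split G B'
    have fin : ∀ X Y : Finset V, X ⊆ A' → Y ⊆ B' → Co G X → Co G Y →
        (X.card + Y.card) % 2 = 0 → A'.card + B'.card ≤ 2 * (X.card + Y.card) →
        ∃ S ⊆ A ∪ B, OddSet G S ∧ A.card + B.card ≤ 3 * S.card ∧ S.card % 2 = 0 := by
      intro X Y hX hY cX cY hp hl
      obtain ⟨h1, h2⟩ := glue G X Y (fun a ha b hb => hAB a (hA' (hX ha)) b (hB' (hY hb)))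
        cX cY hp
      exact ⟨_, union_subset_union (hX.trans hA') (hY.trans hB'), h1, by omega, by omega⟩
    by_cases hp : (X.card + Y.card) % 2 = 0
    · by_cases hl : A'.card + B'.card ≤ 2 * (X.card + Y.card)
      · exact fin X Y hX hY cX cY hp hl
      · exact fin X' Y' hX' hY' cX' cY' (by omega) (by omega)
    · by_cases hl : A'.card + B'.card ≤ 2 * (X.card + Y'.card)
      · exact fin X Y' hX hY' cX cY' (by omega) hl
      · exact fin X' Y hX' hY cX' cY (by omega) (by omega)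

theorem max_join (G : SimpleGraph V) (hG : Cograph G) (U : Finset V) (hU : U.Nonempty)
    (hn : ∀ u ∈ U, ∃ w ∈ U, G.Adj u w) :
    ∃ A B : Finset V, A ⊆ U ∧ B ⊆ U ∧ A.Nonempty ∧ B.Nonempty ∧ (∀ a ∈ A, ∀ b ∈ B, G.Adj a b) ∧
      ∀ w ∈ U, w ∉ A ∪ B → ∀ a ∈ A ∪ B, ¬ G.Adj w a := by
  let P : Finset V × Finset V → Prop := fun p =>
    p.1 ⊆ U ∧ p.2 ⊆ U ∧ p.1.Nonempty ∧ p.2.Nonempty ∧ ∀ a ∈ p.1, ∀ b ∈ p.2, G.Adj a b
  obtain ⟨u, hu⟩ := hU
  obtain ⟨u', hu', huu⟩ := hn u hu
  obtain ⟨⟨A, B⟩, hp, hmax⟩ := exists_max_image (univ.filter P) (fun p => (p.1 ∪ p.2).card)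
    ⟨({u}, {u'}), mem_filter.2 ⟨mem_univ _, by simpa, by simpa, by simp, by simp, by simpa⟩⟩
  obtain ⟨hA, hB, hAn, hBn, hAB⟩ := (mem_filter.1 hp).2
  simp only at hA hB hAn hBn hAB hmax
  refine ⟨A, B, hA, hB, hAn, hBn, hAB, fun w hw hwS a0 ha0 hwa => ?_⟩
  have big : ∀ N M : Finset V, N ∪ M = A ∪ B → N.Nonempty → (∀ a ∈ N, ∀ b ∈ M, G.Adj a b) →
      (∀ a ∈ N, G.Adj a w) → False := by
    intro N M e hN h1 h2
    have hs : N ∪ M ⊆ U := e ▸ union_subset hA hB
    have := hmax (N, insert w M) (mem_filter.2 ⟨mem_univ _, subset_union_left.trans hs,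
      insert_subset hw (subset_union_right.trans hs), hN, insert_nonempty _ _, fun a ha b hb => by
        rcases mem_insert.1 hb with rfl | hb
        · exact h2 a ha
        · exact h1 a ha b hb⟩)
    simp only at this
    rw [union_insert, e, card_insert_of_notMem hwS] at this
    omega
  obtain ⟨a', ha', hwa'⟩ : ∃ a' ∈ A, ¬ G.Adj a' w := by
    by_contra! h
    exact big A B rfl hAn hAB h
  obtain ⟨b', hb', hwb'⟩ : ∃ b' ∈ B, ¬ G.Adj b' w := by
    by_contra! h
    exact big B A (union_comm _ _) hBn (fun b hb a ha => (hAB a ha b hb).symm) h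
  have p4 : ∀ x y z, y ∈ A ∪ B → z ∈ A ∪ B → G.Adj x w → ¬ G.Adj y w → ¬ G.Adj z w →
      G.Adj x y → G.Adj y z → G.Adj x z := by
    intro x y z hy hz h1 h2 h3 h4 h5
    rcases hG w x y z h1.symm h4 h5 (fun e => hwS (e ▸ hy)) (fun e => h3 (e ▸ h1))
      (fun e => hwS (e ▸ hz)) with h | h | h
    · exact absurd h.symm h2
    · exact h
    · exact absurd h.symm h3
  refine big ((A ∪ B).filter (fun x => G.Adj x w)) ((A ∪ B).filter (fun x => ¬ G.Adj x w))
    (filter_union_filter_not_eq _ _) ⟨a0, mem_filter.2 ⟨ha0, hwa.symm⟩⟩ (fun x hx z hz => ?_)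
    (fun x hx => (mem_filter.1 hx).2)
  obtain ⟨hx1, hx2⟩ := mem_filter.1 hx
  obtain ⟨hz1, hz2⟩ := mem_filter.1 hz
  rcases mem_union.1 hx1 with hx | hx <;> rcases mem_union.1 hz1 with hz | hz
  · exact p4 x b' z (mem_union_right _ hb') hz1 hx2 hwb' hz2 (hAB x hx b' hb') (hAB z hz b' hb').symm
  · exact hAB x hx z hz
  · exact (hAB z hz x hx).symm
  · exact p4 x a' z (mem_union_left _ ha') hz1 hx2 hwa' hz2 (hAB a' ha' x hx).symm (hAB a' ha' z hz)

theorem lower (G : SimpleGraph V) (hG : Cograph G) (U : Finset V) :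
    (∀ u ∈ U, ∃ w ∈ U, G.Adj u w) →
      ∃ S ⊆ U, OddSet G S ∧ U.card ≤ 3 * S.card ∧ S.card % 2 = 0 := by
  induction U using Finset.strongInduction with
  | H U ih =>
    intro hn
    rcases U.eq_empty_or_nonempty with rfl | hU
    · exact ⟨∅, Subset.refl _, fun v hv => by simp at hv, by simp, by simp⟩
    obtain ⟨A, B, hA, hB, hAn, hBn, hAB, hout⟩ := max_join G hG U hU hn
    have hsub : A ∪ B ⊆ U := union_subset hA hB
    obtain ⟨S, hS, o1, l1, e1⟩ := join_odd G A B hAn hBn hAB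
    obtain ⟨T, hT, o2, l2, e2⟩ := ih (U \ (A ∪ B))
      (sdiff_ssubset hsub (hAn.mono subset_union_left)) (fun u hu => by
        obtain ⟨hu1, hu2⟩ := mem_sdiff.1 hu
        obtain ⟨w, hw, huw⟩ := hn u hu1
        exact ⟨w, mem_sdiff.2 ⟨hw, fun h => hout u hu1 hu2 w h huw⟩, huw⟩)
    have hd : Disjoint S T := disjoint_left.2 fun a ha hb => (mem_sdiff.1 (hT hb)).2 (hS ha)
    have hno : ∀ t ∈ T, ∀ s ∈ S, ¬ G.Adj t s := fun t ht s hs =>
      hout t (mem_sdiff.1 (hT ht)).1 (mem_sdiff.1 (hT ht)).2 s (hS hs)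
    have c1 := card_sdiff_add_card_eq_card hsub
    have c2 := card_union_le A B
    refine ⟨S ∪ T, union_subset (hS.trans hsub) (hT.trans sdiff_subset), ?_, ?_, ?_⟩
    · rw [oddSet_iff] at o1 o2 ⊢
      intro v hv
      rw [filter_union]
      rcases mem_union.1 hv with hv | hv
      · rw [filter_false_of_mem (s := T) (fun t ht h => hno t ht v hv h.symm), union_empty]
        exact o1 v hv
      · rw [filter_false_of_mem (s := S) (fun s hs h => hno v hv s hs h), empty_union]
        exact o2 v hv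
    · rw [card_union_of_disjoint hd]; omega
    · rw [card_union_of_disjoint hd]; omega

end Pool.Agent.H.MP_007251_co
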