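import Mathlib

set_option autoImplicit false

namespace Pool.Agent.H.MP_007251_co

/-- no induced path on four vertices `a b c d` -/
def Cograph {V : Type} (G : SimpleGraph V) : Prop :=
  ∀ a b c d, G.Adj a b → G.Adj b c → G.Adj c d → a ≠ c → b ≠ d → a ≠ d →
    G.Adj a c ∨ G.Adj b d ∨ G.Adj a d

/-- every vertex of `S` has an odd number of neighbours in `S` -/
def OddSet {V : Type} (G : SimpleGraph V) (S : Finset V) : Prop :=
  ∀ v ∈ S, Odd {w | w ∈ S ∧ G.Adj v w}.ncard

/-- the largest number of vertices of an odd induced subgraph -/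
noncomputable def mos {V : Type} (G : SimpleGraph V) : ℕ :=
  sSup {k | ∃ S : Finset V, OddSet G S ∧ S.card = k}

end Pool.Agent.H.MP_007251_co
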